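import Mathlib
set_option autoImplicit false

namespace Pool.Agent.Results.MP_4fbecc_co.Full

/-- `f` is an edge-magic (total) labeling of `G`. -/
def IsEM {V : Type} (G : SimpleGraph V) (f : V ⊕ G.edgeSet → ℕ) : Prop :=
  Set.BijOn f Set.univ (Set.Icc 1 (Nat.card V + Nat.card G.edgeSet)) ∧
    ∃ σ : ℕ, ∀ (u v : V) (h : G.Adj u v), f (.inl u) + f (.inr ⟨s(u, v), h⟩) + f (.inl v) = σ

lemma bij_of {α : Type} [Finite α] (f : α → ℕ) (N : ℕ) (hc : Nat.card α ≤ N)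
    (hs : ∀ x, 1 ≤ x → x ≤ N → ∃ a, f a = x) :
    Nat.card α = N ∧ Set.BijOn f Set.univ (Set.Icc 1 N) := by
  classical
  let _ := Fintype.ofFinite α
  have h1 : Finset.Icc 1 N ⊆ Finset.univ.image f := by
    intro x hx
    rw [Finset.mem_Icc] at hx
    obtain ⟨a, ha⟩ := hs x hx.1 hx.2
    exact Finset.mem_image.mpr ⟨a, Finset.mem_univ _, ha⟩
  have h2 : (Finset.univ.image f).card ≤ Fintype.card α := Finset.card_image_le
  have h3 := Finset.card_le_card h1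
  rw [Nat.card_eq_fintype_card] at hc ⊢
  simp only [Nat.card_Icc, add_tsub_cancel_right] at h3
  have h4 : Finset.Icc 1 N = Finset.univ.image f :=
    Finset.eq_of_subset_of_card_le h1 (by simp only [Nat.card_Icc, add_tsub_cancel_right]; omega)
  have h5 : Set.InjOn f (Finset.univ : Finset α) :=
    Finset.card_image_iff.mp (by rw [Finset.card_univ]; omega)
  refine ⟨by omega, fun a _ => ?_, by simpa using h5, fun x hx => ?_⟩
  · have : f a ∈ Finset.Icc 1 N := h4 ▸ Finset.mem_image_of_mem f (Finset.mem_univ a)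
    simpa using this
  · obtain ⟨a, ha⟩ := hs x hx.1 hx.2
    exact ⟨a, trivial, ha⟩

lemma em_of {V E : Type} [Finite V] [Finite E] (G : SimpleGraph V) (src tgt : E → V)
    (hadj : ∀ e, G.Adj (src e) (tgt e))
    (hcov : ∀ u v, G.Adj u v → ∃ e, s(u, v) = s(src e, tgt e)) (g : V → ℕ) (k : ℕ)
    (hs : ∀ x, 1 ≤ x → x ≤ Nat.card V + Nat.card E →
      (∃ v, g v = x) ∨ ∃ e, g (src e) + g (tgt e) + x = k) :
    ∃ f, IsEM G f ∧ ∀ v, f (.inl v) = g v := by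
  let w : G.edgeSet → ℕ := fun e => Sym2.lift ⟨fun a b => g a + g b, fun a b => add_comm _ _⟩ e.1
  have hle : Nat.card G.edgeSet ≤ Nat.card E := by
    refine Nat.card_le_card_of_surjective (fun e => (⟨s(src e, tgt e), hadj e⟩ : G.edgeSet)) ?_
    rintro ⟨e, he⟩
    induction e using Sym2.ind with
    | _ u v =>
      obtain ⟨e, h⟩ := hcov u v he
      exact ⟨e, Subtype.ext h.symm⟩
  obtain ⟨h1, h2⟩ := bij_of (Sum.elim g fun e => k - w e) (Nat.card V + Nat.card E)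
    (by rw [Nat.card_sum]; omega) (by
      intro x a b
      rcases hs x a b with ⟨v, hv⟩ | ⟨e, he⟩
      · exact ⟨.inl v, hv⟩
      · refine ⟨.inr ⟨s(src e, tgt e), hadj e⟩, ?_⟩
        show k - (g (src e) + g (tgt e)) = x
        omega)
  rw [Nat.card_sum] at h1
  refine ⟨Sum.elim g fun e => k - w e, ⟨by rw [h1]; exact h2, k, fun u v h => ?_⟩, fun v => rfl⟩
  have := (h2.1 (Set.mem_univ (Sum.inr (⟨s(u, v), h⟩ : G.edgeSet)))).1
  change 1 ≤ k - (g u + g v) at this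
  show g u + (k - (g u + g v)) + g v = k
  omega

/-- `G` is super edge-magic. -/
def IsSEM {V : Type} (G : SimpleGraph V) : Prop :=
  ∃ f, IsEM G f ∧ Set.range (fun v => f (.inl v)) = Set.Icc 1 (Nat.card V)

lemma sem_of {V E : Type} [Finite V] [Finite E] (G : SimpleGraph V) (src tgt : E → V)
    (hadj : ∀ e, G.Adj (src e) (tgt e))
    (hcov : ∀ u v, G.Adj u v → ∃ e, s(u, v) = s(src e, tgt e)) (g : V → ℕ) (s : ℕ)
    (h1 : ∀ x, 1 ≤ x → x ≤ Nat.card V → ∃ v, g v = x)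
    (h2 : ∀ t, s ≤ t → t < s + Nat.card E → ∃ e, g (src e) + g (tgt e) = t) : IsSEM G := by
  obtain ⟨f, hf, hg⟩ := em_of G src tgt hadj hcov g (s + Nat.card V + Nat.card E) (by
    intro x a b
    by_cases hx : x ≤ Nat.card V
    · exact Or.inl (h1 x a hx)
    · obtain ⟨e, he⟩ := h2 (s + Nat.card V + Nat.card E - x) (by omega) (by omega)
      exact Or.inr ⟨e, by omega⟩)
  refine ⟨f, hf, ?_⟩
  have := (bij_of g _ le_rfl h1).2.image_eq
  rw [Set.image_univ] at this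
  rw [← this]
  congr 1
  exact funext hg

open SimpleGraph in
lemma ladder (n : ℕ) (U W : ℕ → ℕ) (s : ℕ) (hn : 1 ≤ n)
    (h1 : ∀ x, 1 ≤ x → x ≤ 2 * n → ∃ j < n, U j = x ∨ W j = x)
    (h2 : ∀ t, s ≤ t → t + 2 < s + 3 * n → ∃ j < n, U j + W j = t ∨
      (j + 1 < n ∧ (U j + U (j + 1) = t ∨ W j + W (j + 1) = t))) :
    IsSEM (pathGraph n □ pathGraph 2) := by
  refine sem_of (E := Fin n ⊕ (Fin (n - 1) × Fin 2)) _
    (Sum.elim (fun j => (j, 0)) fun p => (⟨p.1, by omega⟩, p.2))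
    (Sum.elim (fun j => (j, 1)) fun p => (⟨p.1 + 1, by omega⟩, p.2)) ?_ ?_
    (fun p => if p.2 = 0 then U p.1 else W p.1) s ?_ ?_
  · rintro (j | ⟨j, b⟩) <;> simp [pathGraph_adj]
  · rintro ⟨i, a⟩ ⟨j, b⟩ h
    simp only [boxProd_adj, pathGraph_adj] at h
    rcases h with ⟨h | h, rfl⟩ | ⟨h | h, rfl⟩
    · refine ⟨.inr (⟨i, by omega⟩, a), ?_⟩
      simp [Fin.ext_iff, h]
    · refine ⟨.inr (⟨j, by omega⟩, a), ?_⟩
      simp [Fin.ext_iff, h]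
    · have ha : a = 0 := Fin.ext (by omega)
      have hb : b = 1 := Fin.ext (by omega)
      subst ha hb; exact ⟨.inl i, rfl⟩
    · have ha : a = 1 := Fin.ext (by omega)
      have hb : b = 0 := Fin.ext (by omega)
      subst ha hb; exact ⟨.inl i, Sym2.eq_swap⟩
  · intro x a b
    simp only [Nat.card_eq_fintype_card, Fintype.card_prod, Fintype.card_fin] at b
    obtain ⟨j, hj, h | h⟩ := h1 x a (by omega)
    · exact ⟨(⟨j, hj⟩, 0), by simpa using h⟩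
    · exact ⟨(⟨j, hj⟩, 1), by simpa using h⟩
  · intro t a b
    simp only [Nat.card_eq_fintype_card, Fintype.card_sum, Fintype.card_prod, Fintype.card_fin] at b
    obtain ⟨j, hj, h | ⟨hj', h | h⟩⟩ := h2 t a (by omega)
    · exact ⟨.inl ⟨j, hj⟩, by simpa using h⟩
    · exact ⟨.inr (⟨j, by omega⟩, 0), by simpa using h⟩
    · exact ⟨.inr (⟨j, by omega⟩, 1), by simpa using h⟩

open SimpleGraph in
lemma not2 : ¬ IsSEM (pathGraph 2 □ pathGraph 2) := by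
  rintro ⟨f, ⟨hb, σ, hσ⟩, hr⟩
  have a1 : (pathGraph 2 □ pathGraph 2).Adj (0, 0) (0, 1) := by simp [pathGraph_adj]
  have a2 : (pathGraph 2 □ pathGraph 2).Adj (1, 0) (1, 1) := by simp [pathGraph_adj]
  have a3 : (pathGraph 2 □ pathGraph 2).Adj (0, 0) (1, 0) := by simp [pathGraph_adj]
  have a4 : (pathGraph 2 □ pathGraph 2).Adj (0, 1) (1, 1) := by simp [pathGraph_adj]
  have hV : Nat.card (Fin 2 × Fin 2) = 4 := by simp
  have hE : Nat.card (pathGraph 2 □ pathGraph 2).edgeSet ≤ 4 := by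
    have : Nat.card (pathGraph 2 □ pathGraph 2).edgeSet ≤ Nat.card (Fin 4) := by
      refine Nat.card_le_card_of_surjective
        (![⟨s((0, 0), (0, 1)), a1⟩, ⟨s((1, 0), (1, 1)), a2⟩, ⟨s((0, 0), (1, 0)), a3⟩, ⟨s((0, 1), (1, 1)), a4⟩] : Fin 4 → (pathGraph 2 □ pathGraph 2).edgeSet) ?_
      rintro ⟨e, he⟩
      induction e using Sym2.ind with
      | _ u v =>
        obtain ⟨u1, u2⟩ := u
        obtain ⟨v1, v2⟩ := v
        have he' := he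
        simp only [mem_edgeSet, boxProd_adj, pathGraph_adj] at he'
        fin_cases u1 <;> fin_cases u2 <;> fin_cases v1 <;> fin_cases v2 <;> simp at he' <;>
          simp [Fin.exists_fin_succ, Subtype.ext_iff]
    simpa using this
  have e1 := hσ _ _ a1
  have e2 := hσ _ _ a2
  have e3 := hσ _ _ a3
  have e4 := hσ _ _ a4
  have hv : ∀ v, 1 ≤ f (.inl v) ∧ f (.inl v) ≤ 4 := fun v => by
    have : f (.inl v) ∈ Set.Icc 1 (Nat.card (Fin 2 × Fin 2)) := hr ▸ ⟨v, rfl⟩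
    rw [hV] at this; exact this
  have he : ∀ e, 5 ≤ f (.inr e) ∧ f (.inr e) ≤ 8 := fun e => by
    have h := hb.1 (Set.mem_univ (Sum.inr e))
    refine ⟨?_, by have := h.2; omega⟩
    by_contra hc
    have : f (.inr e) ∈ Set.range (fun v => f (.inl v)) := by
      rw [hr, hV]; exact ⟨h.1, by omega⟩
    obtain ⟨v, hv⟩ := this
    have := hb.2.1 (Set.mem_univ _) (Set.mem_univ _) hv
    simp at this
  have inj : ∀ a b, a ≠ b → f a ≠ f b := fun a b h h' =>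
    h (hb.2.1 (Set.mem_univ _) (Set.mem_univ _) h')
  have v1 := hv (0, 0); have v2 := hv (0, 1); have v3 := hv (1, 0); have v4 := hv (1, 1)
  have w1 := he ⟨s((0, 0), (0, 1)), a1⟩; have w2 := he ⟨s((1, 0), (1, 1)), a2⟩; have w3 := he ⟨s((0, 0), (1, 0)), a3⟩; have w4 := he ⟨s((0, 1), (1, 1)), a4⟩
  have i1 := inj (.inl (0, 0)) (.inl (0, 1)) (by simp)
  have i2 := inj (.inl (0, 0)) (.inl (1, 0)) (by simp)
  have i3 := inj (.inl (0, 0)) (.inl (1, 1)) (by simp)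
  have i4 := inj (.inl (0, 1)) (.inl (1, 0)) (by simp)
  have i5 := inj (.inl (0, 1)) (.inl (1, 1)) (by simp)
  have i6 := inj (.inl (1, 0)) (.inl (1, 1)) (by simp)
  have j1 := inj (.inr ⟨s((0, 0), (0, 1)), a1⟩) (.inr ⟨s((1, 0), (1, 1)), a2⟩) (by simp [Subtype.ext_iff])
  have j2 := inj (.inr ⟨s((0, 0), (0, 1)), a1⟩) (.inr ⟨s((0, 0), (1, 0)), a3⟩) (by simp [Subtype.ext_iff])
  have j3 := inj (.inr ⟨s((0, 0), (0, 1)), a1⟩) (.inr ⟨s((0, 1), (1, 1)), a4⟩) (by simp [Subtype.ext_iff])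
  have j4 := inj (.inr ⟨s((1, 0), (1, 1)), a2⟩) (.inr ⟨s((0, 0), (1, 0)), a3⟩) (by simp [Subtype.ext_iff])
  have j5 := inj (.inr ⟨s((1, 0), (1, 1)), a2⟩) (.inr ⟨s((0, 1), (1, 1)), a4⟩) (by simp [Subtype.ext_iff])
  have j6 := inj (.inr ⟨s((0, 0), (1, 0)), a3⟩) (.inr ⟨s((0, 1), (1, 1)), a4⟩) (by simp [Subtype.ext_iff])
  omega

def U0 (m j : ℕ) : ℕ :=
  if j + 2 < 2 * m then (if (j) % 2 = 0 then (2 * m + 1 + 1 * ((j) / 2)) else (2 + 1 * ((j) / 2))) else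
  if j + 1 < 2 * m then (3 * m) else
  if j < 2 * m then (7 * m) else
  if j + 2 < 4 * m then (if (j - (2 * m)) % 2 = 0 then (m + 1 + 1 * ((j - (2 * m)) / 2)) else (3 * m + 1 + 1 * ((j - (2 * m)) / 2))) else
  if j + 1 < 4 * m then (2 * m) else
  (4 * m)

lemma U0_0e (m j : ℕ) (hp0 : 2 ≤ m) (h1 : 0 ≤ j) (h2 : j + 2 < 2 * m) (h3 : (j) % 2 = 0) :
    2 * U0 m j = 4 * m + j + 2 := by
  unfold U0; rw [if_pos (by omega), if_pos (by omega)] <;> omega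

lemma U0_0o (m j : ℕ) (hp0 : 2 ≤ m) (h1 : 0 ≤ j) (h2 : j + 2 < 2 * m) (h3 : (j) % 2 = 1) :
    2 * U0 m j = j + 3 := by
  unfold U0; rw [if_pos (by omega), if_neg (by omega)] <;> omega

lemma U0_1 (m j : ℕ) (hp0 : 2 ≤ m) (h1 : 2 * m ≤ j + 2) (h2 : j + 1 < 2 * m) :
    U0 m j = 3 * m := by
  unfold U0; rw [if_neg (by omega), if_pos (by omega)] <;> omega

lemma U0_2 (m j : ℕ) (hp0 : 2 ≤ m) (h1 : 2 * m ≤ j + 1) (h2 : j < 2 * m) :
    U0 m j = 7 * m := by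
  unfold U0; rw [if_neg (by omega), if_neg (by omega), if_pos (by omega)] <;> omega

lemma U0_3e (m j : ℕ) (hp0 : 2 ≤ m) (h1 : 2 * m ≤ j) (h2 : j + 2 < 4 * m) (h3 : (j - (2 * m)) % 2 = 0) :
    2 * U0 m j = j + 2 := by
  unfold U0; rw [if_neg (by omega), if_neg (by omega), if_neg (by omega), if_pos (by omega), if_pos (by omega)] <;> omega

lemma U0_3o (m j : ℕ) (hp0 : 2 ≤ m) (h1 : 2 * m ≤ j) (h2 : j + 2 < 4 * m) (h3 : (j - (2 * m)) % 2 = 1) :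
    2 * U0 m j = 4 * m + j + 1 := by
  unfold U0; rw [if_neg (by omega), if_neg (by omega), if_neg (by omega), if_pos (by omega), if_neg (by omega)] <;> omega

lemma U0_4 (m j : ℕ) (hp0 : 2 ≤ m) (h1 : 4 * m ≤ j + 2) (h2 : j + 1 < 4 * m) :
    U0 m j = 2 * m := by
  unfold U0; rw [if_neg (by omega), if_neg (by omega), if_neg (by omega), if_neg (by omega), if_pos (by omega)] <;> omega

lemma U0_5 (m j : ℕ) (hp0 : 2 ≤ m) (h1 : 4 * m ≤ j + 1) (h2 : j < 4 * m) :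
    U0 m j = 4 * m := by
  unfold U0; rw [if_neg (by omega), if_neg (by omega), if_neg (by omega), if_neg (by omega), if_neg (by omega)] <;> omega

def W0 (m j : ℕ) : ℕ :=
  if j + 2 < 2 * m then (if (j) % 2 = 0 then (4 * m + 1 + 1 * ((j) / 2)) else (6 * m + 1 + 1 * ((j) / 2))) else
  if j + 1 < 2 * m then (7 * m + 1) else
  if j < 2 * m then (5 * m) else
  if j + 2 < 4 * m then (if (j - (2 * m)) % 2 = 0 then (7 * m + 2 + 1 * ((j - (2 * m)) / 2)) else (5 * m + 1 + 1 * ((j - (2 * m)) / 2))) else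
  if j + 1 < 4 * m then (6 * m) else
  (1)

lemma W0_0e (m j : ℕ) (hp0 : 2 ≤ m) (h1 : 0 ≤ j) (h2 : j + 2 < 2 * m) (h3 : (j) % 2 = 0) :
    2 * W0 m j = 8 * m + j + 2 := by
  unfold W0; rw [if_pos (by omega), if_pos (by omega)] <;> omega

lemma W0_0o (m j : ℕ) (hp0 : 2 ≤ m) (h1 : 0 ≤ j) (h2 : j + 2 < 2 * m) (h3 : (j) % 2 = 1) :
    2 * W0 m j = 12 * m + j + 1 := by
  unfold W0; rw [if_pos (by omega), if_neg (by omega)] <;> omega

lemma W0_1 (m j : ℕ) (hp0 : 2 ≤ m) (h1 : 2 * m ≤ j + 2) (h2 : j + 1 < 2 * m) :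
    W0 m j = 7 * m + 1 := by
  unfold W0; rw [if_neg (by omega), if_pos (by omega)] <;> omega

lemma W0_2 (m j : ℕ) (hp0 : 2 ≤ m) (h1 : 2 * m ≤ j + 1) (h2 : j < 2 * m) :
    W0 m j = 5 * m := by
  unfold W0; rw [if_neg (by omega), if_neg (by omega), if_pos (by omega)] <;> omega

lemma W0_3e (m j : ℕ) (hp0 : 2 ≤ m) (h1 : 2 * m ≤ j) (h2 : j + 2 < 4 * m) (h3 : (j - (2 * m)) % 2 = 0) :
    2 * W0 m j = 12 * m + j + 4 := by
  unfold W0; rw [if_neg (by omega), if_neg (by omega), if_neg (by omega), if_pos (by omega), if_pos (by omega)] <;> omega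

lemma W0_3o (m j : ℕ) (hp0 : 2 ≤ m) (h1 : 2 * m ≤ j) (h2 : j + 2 < 4 * m) (h3 : (j - (2 * m)) % 2 = 1) :
    2 * W0 m j = 8 * m + j + 1 := by
  unfold W0; rw [if_neg (by omega), if_neg (by omega), if_neg (by omega), if_pos (by omega), if_neg (by omega)] <;> omega

lemma W0_4 (m j : ℕ) (hp0 : 2 ≤ m) (h1 : 4 * m ≤ j + 2) (h2 : j + 1 < 4 * m) :
    W0 m j = 6 * m := by
  unfold W0; rw [if_neg (by omega), if_neg (by omega), if_neg (by omega), if_neg (by omega), if_pos (by omega)] <;> omega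

lemma W0_5 (m j : ℕ) (hp0 : 2 ≤ m) (h1 : 4 * m ≤ j + 1) (h2 : j < 4 * m) :
    W0 m j = 1 := by
  unfold W0; rw [if_neg (by omega), if_neg (by omega), if_neg (by omega), if_neg (by omega), if_neg (by omega)] <;> omega

lemma cl0 (m : ℕ) (hp0 : 2 ≤ m) (v : ℕ) (h1 : 1 ≤ v) (h2 : v ≤ 2 * (4 * m)) :
    ∃ j < (4 * m), U0 m j = v ∨ W0 m j = v := by
  by_cases c0 : v ≤ 1
  · obtain ⟨j, hj⟩ : ∃ j, j = (4 * m - (1)) := ⟨_, rfl⟩
    have a0 := W0_5 m (j) hp0 (by omega) (by omega)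
    exact ⟨j, by omega, Or.inr (by omega)⟩
  by_cases c1 : v ≤ m
  · obtain ⟨j, hj⟩ : ∃ j, j = (2 * v - (3)) := ⟨_, rfl⟩
    have a0 := U0_0o m (j) hp0 (by omega) (by omega) (by omega)
    exact ⟨j, by omega, Or.inl (by omega)⟩
  by_cases c2 : v + 1 ≤ 2 * m
  · obtain ⟨j, hj⟩ : ∃ j, j = (2 * v - (2)) := ⟨_, rfl⟩
    have a0 := U0_3e m (j) hp0 (by omega) (by omega) (by omega)
    exact ⟨j, by omega, Or.inl (by omega)⟩
  by_cases c3 : v ≤ 2 * m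
  · obtain ⟨j, hj⟩ : ∃ j, j = (4 * m - (2)) := ⟨_, rfl⟩
    have a0 := U0_4 m (j) hp0 (by omega) (by omega)
    exact ⟨j, by omega, Or.inl (by omega)⟩
  by_cases c4 : v + 1 ≤ 3 * m
  · obtain ⟨j, hj⟩ : ∃ j, j = (2 * v - (4 * m + 2)) := ⟨_, rfl⟩
    have a0 := U0_0e m (j) hp0 (by omega) (by omega) (by omega)
    exact ⟨j, by omega, Or.inl (by omega)⟩
  by_cases c5 : v ≤ 3 * m
  · obtain ⟨j, hj⟩ : ∃ j, j = (2 * m - (2)) := ⟨_, rfl⟩
    have a0 := U0_1 m (j) hp0 (by omega) (by omega)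
    exact ⟨j, by omega, Or.inl (by omega)⟩
  by_cases c6 : v + 1 ≤ 4 * m
  · obtain ⟨j, hj⟩ : ∃ j, j = (2 * v - (4 * m + 1)) := ⟨_, rfl⟩
    have a0 := U0_3o m (j) hp0 (by omega) (by omega) (by omega)
    exact ⟨j, by omega, Or.inl (by omega)⟩
  by_cases c7 : v ≤ 4 * m
  · obtain ⟨j, hj⟩ : ∃ j, j = (4 * m - (1)) := ⟨_, rfl⟩
    have a0 := U0_5 m (j) hp0 (by omega) (by omega)
    exact ⟨j, by omega, Or.inl (by omega)⟩
  by_cases c8 : v + 1 ≤ 5 * m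
  · obtain ⟨j, hj⟩ : ∃ j, j = (2 * v - (8 * m + 2)) := ⟨_, rfl⟩
    have a0 := W0_0e m (j) hp0 (by omega) (by omega) (by omega)
    exact ⟨j, by omega, Or.inr (by omega)⟩
  by_cases c9 : v ≤ 5 * m
  · obtain ⟨j, hj⟩ : ∃ j, j = (2 * m - (1)) := ⟨_, rfl⟩
    have a0 := W0_2 m (j) hp0 (by omega) (by omega)
    exact ⟨j, by omega, Or.inr (by omega)⟩
  by_cases c10 : v + 1 ≤ 6 * m
  · obtain ⟨j, hj⟩ : ∃ j, j = (2 * v - (8 * m + 1)) := ⟨_, rfl⟩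
    have a0 := W0_3o m (j) hp0 (by omega) (by omega) (by omega)
    exact ⟨j, by omega, Or.inr (by omega)⟩
  by_cases c11 : v ≤ 6 * m
  · obtain ⟨j, hj⟩ : ∃ j, j = (4 * m - (2)) := ⟨_, rfl⟩
    have a0 := W0_4 m (j) hp0 (by omega) (by omega)
    exact ⟨j, by omega, Or.inr (by omega)⟩
  by_cases c12 : v + 1 ≤ 7 * m
  · obtain ⟨j, hj⟩ : ∃ j, j = (2 * v - (12 * m + 1)) := ⟨_, rfl⟩
    have a0 := W0_0o m (j) hp0 (by omega) (by omega) (by omega)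
    exact ⟨j, by omega, Or.inr (by omega)⟩
  by_cases c13 : v ≤ 7 * m
  · obtain ⟨j, hj⟩ : ∃ j, j = (2 * m - (1)) := ⟨_, rfl⟩
    have a0 := U0_2 m (j) hp0 (by omega) (by omega)
    exact ⟨j, by omega, Or.inl (by omega)⟩
  by_cases c14 : v ≤ 7 * m + 1
  · obtain ⟨j, hj⟩ : ∃ j, j = (2 * m - (2)) := ⟨_, rfl⟩
    have a0 := W0_1 m (j) hp0 (by omega) (by omega)
    exact ⟨j, by omega, Or.inr (by omega)⟩
  obtain ⟨j, hj⟩ : ∃ j, j = (2 * v - (12 * m + 4)) := ⟨_, rfl⟩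
  have a0 := W0_3e m (j) hp0 (by omega) (by omega) (by omega)
  exact ⟨j, by omega, Or.inr (by omega)⟩

lemma cs0 (m : ℕ) (hp0 : 2 ≤ m) (v : ℕ) (h1 : (2 * m + 3) ≤ v) (h2 : v + 2 < (2 * m + 3) + 3 * (4 * m)) :
    ∃ j < (4 * m), U0 m j + W0 m j = v ∨
      (j + 1 < (4 * m) ∧ (U0 m j + U0 m (j + 1) = v ∨ W0 m j + W0 m (j + 1) = v)) := by
  by_cases c0 : v ≤ 2 * m + 3
  · obtain ⟨j, hj⟩ : ∃ j, j = (v - (2 * m + 3)) := ⟨_, rfl⟩
    have a0 := U0_0e m (j) hp0 (by omega) (by omega) (by omega)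
    have a1 := U0_0o m ((j + 1)) hp0 (by omega) (by omega) (by omega)
    exact ⟨j, by omega, Or.inr ⟨by omega, Or.inl (by omega)⟩⟩
  by_cases c1 : v + 2 ≤ 4 * m
  · by_cases d0 : (v - (2 * m + 4)) % 2 = 0
    · obtain ⟨j, hj⟩ : ∃ j, j = (v - (2 * m + 3)) := ⟨_, rfl⟩
      have a0 := U0_0o m (j) hp0 (by omega) (by omega) (by omega)
      have a1 := U0_0e m ((j + 1)) hp0 (by omega) (by omega) (by omega)
      exact ⟨j, by omega, Or.inr ⟨by omega, Or.inl (by omega)⟩⟩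
    obtain ⟨j, hj⟩ : ∃ j, j = (v - (2 * m + 3)) := ⟨_, rfl⟩
    have a0 := U0_0e m (j) hp0 (by omega) (by omega) (by omega)
    have a1 := U0_0o m ((j + 1)) hp0 (by omega) (by omega) (by omega)
    exact ⟨j, by omega, Or.inr ⟨by omega, Or.inl (by omega)⟩⟩
  by_cases c2 : v + 1 ≤ 4 * m
  · obtain ⟨j, hj⟩ : ∃ j, j = (v - (2 * m + 3)) := ⟨_, rfl⟩
    have a0 := U0_0e m (j) hp0 (by omega) (by omega) (by omega)
    have a1 := U0_0o m ((j + 1)) hp0 (by omega) (by omega) (by omega)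
    exact ⟨j, by omega, Or.inr ⟨by omega, Or.inl (by omega)⟩⟩
  by_cases c3 : v ≤ 4 * m
  · obtain ⟨j, hj⟩ : ∃ j, j = (2 * m - (3)) := ⟨_, rfl⟩
    have a0 := U0_0o m (j) hp0 (by omega) (by omega) (by omega)
    have a1 := U0_1 m ((j + 1)) hp0 (by omega) (by omega)
    exact ⟨j, by omega, Or.inr ⟨by omega, Or.inl (by omega)⟩⟩
  by_cases c4 : v ≤ 4 * m + 1
  · obtain ⟨j, hj⟩ : ∃ j, j = (4 * m - (1)) := ⟨_, rfl⟩
    have a0 := U0_5 m (j) hp0 (by omega) (by omega)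
    have a1 := W0_5 m (j) hp0 (by omega) (by omega)
    exact ⟨j, by omega, Or.inl (by omega)⟩
  by_cases c5 : v ≤ 4 * m + 2
  · obtain ⟨j, hj⟩ : ∃ j, j = (v - (2 * m + 2)) := ⟨_, rfl⟩
    have a0 := U0_3e m (j) hp0 (by omega) (by omega) (by omega)
    have a1 := U0_3o m ((j + 1)) hp0 (by omega) (by omega) (by omega)
    exact ⟨j, by omega, Or.inr ⟨by omega, Or.inl (by omega)⟩⟩
  by_cases c6 : v + 3 ≤ 6 * m
  · by_cases d0 : (v - (4 * m + 3)) % 2 = 0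
    · obtain ⟨j, hj⟩ : ∃ j, j = (v - (2 * m + 2)) := ⟨_, rfl⟩
      have a0 := U0_3o m (j) hp0 (by omega) (by omega) (by omega)
      have a1 := U0_3e m ((j + 1)) hp0 (by omega) (by omega) (by omega)
      exact ⟨j, by omega, Or.inr ⟨by omega, Or.inl (by omega)⟩⟩
    obtain ⟨j, hj⟩ : ∃ j, j = (v - (2 * m + 2)) := ⟨_, rfl⟩
    have a0 := U0_3e m (j) hp0 (by omega) (by omega) (by omega)
    have a1 := U0_3o m ((j + 1)) hp0 (by omega) (by omega) (by omega)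
    exact ⟨j, by omega, Or.inr ⟨by omega, Or.inl (by omega)⟩⟩
  by_cases c7 : v + 2 ≤ 6 * m
  · obtain ⟨j, hj⟩ : ∃ j, j = (v - (2 * m + 2)) := ⟨_, rfl⟩
    have a0 := U0_3e m (j) hp0 (by omega) (by omega) (by omega)
    have a1 := U0_3o m ((j + 1)) hp0 (by omega) (by omega) (by omega)
    exact ⟨j, by omega, Or.inr ⟨by omega, Or.inl (by omega)⟩⟩
  by_cases c8 : v + 1 ≤ 6 * m
  · obtain ⟨j, hj⟩ : ∃ j, j = (4 * m - (3)) := ⟨_, rfl⟩
    have a0 := U0_3o m (j) hp0 (by omega) (by omega) (by omega)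
    have a1 := U0_4 m ((j + 1)) hp0 (by omega) (by omega)
    exact ⟨j, by omega, Or.inr ⟨by omega, Or.inl (by omega)⟩⟩
  by_cases c9 : v ≤ 6 * m
  · obtain ⟨j, hj⟩ : ∃ j, j = (4 * m - (2)) := ⟨_, rfl⟩
    have a0 := U0_4 m (j) hp0 (by omega) (by omega)
    have a1 := U0_5 m ((j + 1)) hp0 (by omega) (by omega)
    exact ⟨j, by omega, Or.inr ⟨by omega, Or.inl (by omega)⟩⟩
  by_cases c10 : v ≤ 6 * m + 1
  · obtain ⟨j, hj⟩ : ∃ j, j = (4 * m - (2)) := ⟨_, rfl⟩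
    have a0 := W0_4 m (j) hp0 (by omega) (by omega)
    have a1 := W0_5 m ((j + 1)) hp0 (by omega) (by omega)
    exact ⟨j, by omega, Or.inr ⟨by omega, Or.inr (by omega)⟩⟩
  by_cases c11 : v ≤ 6 * m + 2
  · obtain ⟨j, hj⟩ : ∃ j, j = (v - (6 * m + 2)) := ⟨_, rfl⟩
    have a0 := U0_0e m (j) hp0 (by omega) (by omega) (by omega)
    have a1 := W0_0e m (j) hp0 (by omega) (by omega) (by omega)
    exact ⟨j, by omega, Or.inl (by omega)⟩
  by_cases c12 : v + 2 ≤ 8 * m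
  · by_cases d0 : (v - (6 * m + 3)) % 2 = 0
    · obtain ⟨j, hj⟩ : ∃ j, j = (v - (6 * m + 2)) := ⟨_, rfl⟩
      have a0 := U0_0o m (j) hp0 (by omega) (by omega) (by omega)
      have a1 := W0_0o m (j) hp0 (by omega) (by omega) (by omega)
      exact ⟨j, by omega, Or.inl (by omega)⟩
    obtain ⟨j, hj⟩ : ∃ j, j = (v - (6 * m + 2)) := ⟨_, rfl⟩
    have a0 := U0_0e m (j) hp0 (by omega) (by omega) (by omega)
    have a1 := W0_0e m (j) hp0 (by omega) (by omega) (by omega)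
    exact ⟨j, by omega, Or.inl (by omega)⟩
  by_cases c13 : v + 1 ≤ 8 * m
  · obtain ⟨j, hj⟩ : ∃ j, j = (v - (6 * m + 2)) := ⟨_, rfl⟩
    have a0 := U0_0o m (j) hp0 (by omega) (by omega) (by omega)
    have a1 := W0_0o m (j) hp0 (by omega) (by omega) (by omega)
    exact ⟨j, by omega, Or.inl (by omega)⟩
  by_cases c14 : v ≤ 8 * m
  · obtain ⟨j, hj⟩ : ∃ j, j = (4 * m - (2)) := ⟨_, rfl⟩
    have a0 := U0_4 m (j) hp0 (by omega) (by omega)
    have a1 := W0_4 m (j) hp0 (by omega) (by omega)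
    exact ⟨j, by omega, Or.inl (by omega)⟩
  by_cases c15 : v ≤ 8 * m + 1
  · obtain ⟨j, hj⟩ : ∃ j, j = (2 * m - (1)) := ⟨_, rfl⟩
    have a0 := U0_2 m (j) hp0 (by omega) (by omega)
    have a1 := U0_3e m ((j + 1)) hp0 (by omega) (by omega) (by omega)
    exact ⟨j, by omega, Or.inr ⟨by omega, Or.inl (by omega)⟩⟩
  by_cases c16 : v ≤ 8 * m + 2
  · obtain ⟨j, hj⟩ : ∃ j, j = (v - (6 * m + 1)) := ⟨_, rfl⟩
    have a0 := U0_3o m (j) hp0 (by omega) (by omega) (by omega)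
    have a1 := W0_3o m (j) hp0 (by omega) (by omega) (by omega)
    exact ⟨j, by omega, Or.inl (by omega)⟩
  by_cases c17 : v + 2 ≤ 10 * m
  · by_cases d0 : (v - (8 * m + 3)) % 2 = 0
    · obtain ⟨j, hj⟩ : ∃ j, j = (v - (6 * m + 3)) := ⟨_, rfl⟩
      have a0 := U0_3e m (j) hp0 (by omega) (by omega) (by omega)
      have a1 := W0_3e m (j) hp0 (by omega) (by omega) (by omega)
      exact ⟨j, by omega, Or.inl (by omega)⟩
    obtain ⟨j, hj⟩ : ∃ j, j = (v - (6 * m + 1)) := ⟨_, rfl⟩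
    have a0 := U0_3o m (j) hp0 (by omega) (by omega) (by omega)
    have a1 := W0_3o m (j) hp0 (by omega) (by omega) (by omega)
    exact ⟨j, by omega, Or.inl (by omega)⟩
  by_cases c18 : v + 1 ≤ 10 * m
  · obtain ⟨j, hj⟩ : ∃ j, j = (v - (6 * m + 3)) := ⟨_, rfl⟩
    have a0 := U0_3e m (j) hp0 (by omega) (by omega) (by omega)
    have a1 := W0_3e m (j) hp0 (by omega) (by omega) (by omega)
    exact ⟨j, by omega, Or.inl (by omega)⟩
  by_cases c19 : v ≤ 10 * m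
  · obtain ⟨j, hj⟩ : ∃ j, j = (2 * m - (2)) := ⟨_, rfl⟩
    have a0 := U0_1 m (j) hp0 (by omega) (by omega)
    have a1 := U0_2 m ((j + 1)) hp0 (by omega) (by omega)
    exact ⟨j, by omega, Or.inr ⟨by omega, Or.inl (by omega)⟩⟩
  by_cases c20 : v ≤ 10 * m + 1
  · obtain ⟨j, hj⟩ : ∃ j, j = (2 * m - (2)) := ⟨_, rfl⟩
    have a0 := U0_1 m (j) hp0 (by omega) (by omega)
    have a1 := W0_1 m (j) hp0 (by omega) (by omega)
    exact ⟨j, by omega, Or.inl (by omega)⟩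
  by_cases c21 : v ≤ 10 * m + 2
  · obtain ⟨j, hj⟩ : ∃ j, j = (v - (10 * m + 2)) := ⟨_, rfl⟩
    have a0 := W0_0e m (j) hp0 (by omega) (by omega) (by omega)
    have a1 := W0_0o m ((j + 1)) hp0 (by omega) (by omega) (by omega)
    exact ⟨j, by omega, Or.inr ⟨by omega, Or.inr (by omega)⟩⟩
  by_cases c22 : v + 3 ≤ 12 * m
  · by_cases d0 : (v - (10 * m + 3)) % 2 = 0
    · obtain ⟨j, hj⟩ : ∃ j, j = (v - (10 * m + 2)) := ⟨_, rfl⟩
      have a0 := W0_0o m (j) hp0 (by omega) (by omega) (by omega)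
      have a1 := W0_0e m ((j + 1)) hp0 (by omega) (by omega) (by omega)
      exact ⟨j, by omega, Or.inr ⟨by omega, Or.inr (by omega)⟩⟩
    obtain ⟨j, hj⟩ : ∃ j, j = (v - (10 * m + 2)) := ⟨_, rfl⟩
    have a0 := W0_0e m (j) hp0 (by omega) (by omega) (by omega)
    have a1 := W0_0o m ((j + 1)) hp0 (by omega) (by omega) (by omega)
    exact ⟨j, by omega, Or.inr ⟨by omega, Or.inr (by omega)⟩⟩
  by_cases c23 : v + 2 ≤ 12 * m
  · obtain ⟨j, hj⟩ : ∃ j, j = (v - (10 * m + 2)) := ⟨_, rfl⟩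
    have a0 := W0_0e m (j) hp0 (by omega) (by omega) (by omega)
    have a1 := W0_0o m ((j + 1)) hp0 (by omega) (by omega) (by omega)
    exact ⟨j, by omega, Or.inr ⟨by omega, Or.inr (by omega)⟩⟩
  by_cases c24 : v + 1 ≤ 12 * m
  · obtain ⟨j, hj⟩ : ∃ j, j = (4 * m - (3)) := ⟨_, rfl⟩
    have a0 := W0_3o m (j) hp0 (by omega) (by omega) (by omega)
    have a1 := W0_4 m ((j + 1)) hp0 (by omega) (by omega)
    exact ⟨j, by omega, Or.inr ⟨by omega, Or.inr (by omega)⟩⟩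
  by_cases c25 : v ≤ 12 * m
  · obtain ⟨j, hj⟩ : ∃ j, j = (2 * m - (1)) := ⟨_, rfl⟩
    have a0 := U0_2 m (j) hp0 (by omega) (by omega)
    have a1 := W0_2 m (j) hp0 (by omega) (by omega)
    exact ⟨j, by omega, Or.inl (by omega)⟩
  by_cases c26 : v ≤ 12 * m + 1
  · obtain ⟨j, hj⟩ : ∃ j, j = (2 * m - (2)) := ⟨_, rfl⟩
    have a0 := W0_1 m (j) hp0 (by omega) (by omega)
    have a1 := W0_2 m ((j + 1)) hp0 (by omega) (by omega)
    exact ⟨j, by omega, Or.inr ⟨by omega, Or.inr (by omega)⟩⟩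
  by_cases c27 : v ≤ 12 * m + 2
  · obtain ⟨j, hj⟩ : ∃ j, j = (2 * m - (1)) := ⟨_, rfl⟩
    have a0 := W0_2 m (j) hp0 (by omega) (by omega)
    have a1 := W0_3e m ((j + 1)) hp0 (by omega) (by omega) (by omega)
    exact ⟨j, by omega, Or.inr ⟨by omega, Or.inr (by omega)⟩⟩
  by_cases c28 : v ≤ 12 * m + 3
  · obtain ⟨j, hj⟩ : ∃ j, j = (v - (10 * m + 3)) := ⟨_, rfl⟩
    have a0 := W0_3e m (j) hp0 (by omega) (by omega) (by omega)
    have a1 := W0_3o m ((j + 1)) hp0 (by omega) (by omega) (by omega)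
    exact ⟨j, by omega, Or.inr ⟨by omega, Or.inr (by omega)⟩⟩
  by_cases c29 : v + 2 ≤ 14 * m
  · by_cases d0 : (v - (12 * m + 4)) % 2 = 0
    · obtain ⟨j, hj⟩ : ∃ j, j = (v - (10 * m + 3)) := ⟨_, rfl⟩
      have a0 := W0_3o m (j) hp0 (by omega) (by omega) (by omega)
      have a1 := W0_3e m ((j + 1)) hp0 (by omega) (by omega) (by omega)
      exact ⟨j, by omega, Or.inr ⟨by omega, Or.inr (by omega)⟩⟩
    obtain ⟨j, hj⟩ : ∃ j, j = (v - (10 * m + 3)) := ⟨_, rfl⟩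
    have a0 := W0_3e m (j) hp0 (by omega) (by omega) (by omega)
    have a1 := W0_3o m ((j + 1)) hp0 (by omega) (by omega) (by omega)
    exact ⟨j, by omega, Or.inr ⟨by omega, Or.inr (by omega)⟩⟩
  by_cases c30 : v + 1 ≤ 14 * m
  · obtain ⟨j, hj⟩ : ∃ j, j = (v - (10 * m + 3)) := ⟨_, rfl⟩
    have a0 := W0_3e m (j) hp0 (by omega) (by omega) (by omega)
    have a1 := W0_3o m ((j + 1)) hp0 (by omega) (by omega) (by omega)
    exact ⟨j, by omega, Or.inr ⟨by omega, Or.inr (by omega)⟩⟩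
  obtain ⟨j, hj⟩ : ∃ j, j = (2 * m - (3)) := ⟨_, rfl⟩
  have a0 := W0_0o m (j) hp0 (by omega) (by omega) (by omega)
  have a1 := W0_1 m ((j + 1)) hp0 (by omega) (by omega)
  exact ⟨j, by omega, Or.inr ⟨by omega, Or.inr (by omega)⟩⟩

def U2 (m j : ℕ) : ℕ :=
  if j + 2 < 2 * m then (if (j) % 2 = 0 then (1 + 1 * ((j) / 2)) else (2 * m + 3 + 1 * ((j) / 2))) else
  if j + 1 < 2 * m then (3 * m + 2) else
  if j < 2 * m then (7 * m + 3) else
  if j + 2 < 4 * m then (if (j - (2 * m)) % 2 = 0 then (3 * m + 3 + 1 * ((j - (2 * m)) / 2)) else (m + 1 + 1 * ((j - (2 * m)) / 2))) else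
  if j + 1 < 4 * m then (8 * m + 4) else
  if j < 4 * m then (6 * m + 2) else
  if j < 4 * m + 1 then (4 * m + 2) else
  (2 * m + 2)

lemma U2_0e (m j : ℕ) (hp0 : 2 ≤ m) (h1 : 0 ≤ j) (h2 : j + 2 < 2 * m) (h3 : (j) % 2 = 0) :
    2 * U2 m j = j + 2 := by
  unfold U2; rw [if_pos (by omega), if_pos (by omega)] <;> omega

lemma U2_0o (m j : ℕ) (hp0 : 2 ≤ m) (h1 : 0 ≤ j) (h2 : j + 2 < 2 * m) (h3 : (j) % 2 = 1) :
    2 * U2 m j = 4 * m + j + 5 := by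
  unfold U2; rw [if_pos (by omega), if_neg (by omega)] <;> omega

lemma U2_1 (m j : ℕ) (hp0 : 2 ≤ m) (h1 : 2 * m ≤ j + 2) (h2 : j + 1 < 2 * m) :
    U2 m j = 3 * m + 2 := by
  unfold U2; rw [if_neg (by omega), if_pos (by omega)] <;> omega

lemma U2_2 (m j : ℕ) (hp0 : 2 ≤ m) (h1 : 2 * m ≤ j + 1) (h2 : j < 2 * m) :
    U2 m j = 7 * m + 3 := by
  unfold U2; rw [if_neg (by omega), if_neg (by omega), if_pos (by omega)] <;> omega

lemma U2_3e (m j : ℕ) (hp0 : 2 ≤ m) (h1 : 2 * m ≤ j) (h2 : j + 2 < 4 * m) (h3 : (j - (2 * m)) % 2 = 0) :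
    2 * U2 m j = 4 * m + j + 6 := by
  unfold U2; rw [if_neg (by omega), if_neg (by omega), if_neg (by omega), if_pos (by omega), if_pos (by omega)] <;> omega

lemma U2_3o (m j : ℕ) (hp0 : 2 ≤ m) (h1 : 2 * m ≤ j) (h2 : j + 2 < 4 * m) (h3 : (j - (2 * m)) % 2 = 1) :
    2 * U2 m j = j + 1 := by
  unfold U2; rw [if_neg (by omega), if_neg (by omega), if_neg (by omega), if_pos (by omega), if_neg (by omega)] <;> omega

lemma U2_4 (m j : ℕ) (hp0 : 2 ≤ m) (h1 : 4 * m ≤ j + 2) (h2 : j + 1 < 4 * m) :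
    U2 m j = 8 * m + 4 := by
  unfold U2; rw [if_neg (by omega), if_neg (by omega), if_neg (by omega), if_neg (by omega), if_pos (by omega)] <;> omega

lemma U2_5 (m j : ℕ) (hp0 : 2 ≤ m) (h1 : 4 * m ≤ j + 1) (h2 : j < 4 * m) :
    U2 m j = 6 * m + 2 := by
  unfold U2; rw [if_neg (by omega), if_neg (by omega), if_neg (by omega), if_neg (by omega), if_neg (by omega), if_pos (by omega)] <;> omega

lemma U2_6 (m j : ℕ) (hp0 : 2 ≤ m) (h1 : 4 * m ≤ j) (h2 : j < 4 * m + 1) :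
    U2 m j = 4 * m + 2 := by
  unfold U2; rw [if_neg (by omega), if_neg (by omega), if_neg (by omega), if_neg (by omega), if_neg (by omega), if_neg (by omega), if_pos (by omega)] <;> omega

lemma U2_7 (m j : ℕ) (hp0 : 2 ≤ m) (h1 : 4 * m + 1 ≤ j) (h2 : j < 4 * m + 2) :
    U2 m j = 2 * m + 2 := by
  unfold U2; rw [if_neg (by omega), if_neg (by omega), if_neg (by omega), if_neg (by omega), if_neg (by omega), if_neg (by omega), if_neg (by omega)] <;> omega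

def W2 (m j : ℕ) : ℕ :=
  if j + 2 < 2 * m then (if (j) % 2 = 0 then (6 * m + 4 + 1 * ((j) / 2)) else (4 * m + 3 + 1 * ((j) / 2))) else
  if j + 1 < 2 * m then (m) else
  if j < 2 * m then (7 * m + 4) else
  if j + 2 < 4 * m then (if (j - (2 * m)) % 2 = 0 then (5 * m + 2 + 1 * ((j - (2 * m)) / 2)) else (7 * m + 5 + 1 * ((j - (2 * m)) / 2))) else
  if j + 1 < 4 * m then (6 * m + 1) else
  if j < 4 * m then (6 * m + 3) else
  if j < 4 * m + 1 then (2 * m) else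
  (2 * m + 1)

lemma W2_0e (m j : ℕ) (hp0 : 2 ≤ m) (h1 : 0 ≤ j) (h2 : j + 2 < 2 * m) (h3 : (j) % 2 = 0) :
    2 * W2 m j = 12 * m + j + 8 := by
  unfold W2; rw [if_pos (by omega), if_pos (by omega)] <;> omega

lemma W2_0o (m j : ℕ) (hp0 : 2 ≤ m) (h1 : 0 ≤ j) (h2 : j + 2 < 2 * m) (h3 : (j) % 2 = 1) :
    2 * W2 m j = 8 * m + j + 5 := by
  unfold W2; rw [if_pos (by omega), if_neg (by omega)] <;> omega

lemma W2_1 (m j : ℕ) (hp0 : 2 ≤ m) (h1 : 2 * m ≤ j + 2) (h2 : j + 1 < 2 * m) :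
    W2 m j = m := by
  unfold W2; rw [if_neg (by omega), if_pos (by omega)] <;> omega

lemma W2_2 (m j : ℕ) (hp0 : 2 ≤ m) (h1 : 2 * m ≤ j + 1) (h2 : j < 2 * m) :
    W2 m j = 7 * m + 4 := by
  unfold W2; rw [if_neg (by omega), if_neg (by omega), if_pos (by omega)] <;> omega

lemma W2_3e (m j : ℕ) (hp0 : 2 ≤ m) (h1 : 2 * m ≤ j) (h2 : j + 2 < 4 * m) (h3 : (j - (2 * m)) % 2 = 0) :
    2 * W2 m j = 8 * m + j + 4 := by
  unfold W2; rw [if_neg (by omega), if_neg (by omega), if_neg (by omega), if_pos (by omega), if_pos (by omega)] <;> omega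

lemma W2_3o (m j : ℕ) (hp0 : 2 ≤ m) (h1 : 2 * m ≤ j) (h2 : j + 2 < 4 * m) (h3 : (j - (2 * m)) % 2 = 1) :
    2 * W2 m j = 12 * m + j + 9 := by
  unfold W2; rw [if_neg (by omega), if_neg (by omega), if_neg (by omega), if_pos (by omega), if_neg (by omega)] <;> omega

lemma W2_4 (m j : ℕ) (hp0 : 2 ≤ m) (h1 : 4 * m ≤ j + 2) (h2 : j + 1 < 4 * m) :
    W2 m j = 6 * m + 1 := by
  unfold W2; rw [if_neg (by omega), if_neg (by omega), if_neg (by omega), if_neg (by omega), if_pos (by omega)] <;> omega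

lemma W2_5 (m j : ℕ) (hp0 : 2 ≤ m) (h1 : 4 * m ≤ j + 1) (h2 : j < 4 * m) :
    W2 m j = 6 * m + 3 := by
  unfold W2; rw [if_neg (by omega), if_neg (by omega), if_neg (by omega), if_neg (by omega), if_neg (by omega), if_pos (by omega)] <;> omega

lemma W2_6 (m j : ℕ) (hp0 : 2 ≤ m) (h1 : 4 * m ≤ j) (h2 : j < 4 * m + 1) :
    W2 m j = 2 * m := by
  unfold W2; rw [if_neg (by omega), if_neg (by omega), if_neg (by omega), if_neg (by omega), if_neg (by omega), if_neg (by omega), if_pos (by omega)] <;> omega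

lemma W2_7 (m j : ℕ) (hp0 : 2 ≤ m) (h1 : 4 * m + 1 ≤ j) (h2 : j < 4 * m + 2) :
    W2 m j = 2 * m + 1 := by
  unfold W2; rw [if_neg (by omega), if_neg (by omega), if_neg (by omega), if_neg (by omega), if_neg (by omega), if_neg (by omega), if_neg (by omega)] <;> omega

lemma cl2 (m : ℕ) (hp0 : 2 ≤ m) (v : ℕ) (h1 : 1 ≤ v) (h2 : v ≤ 2 * (4 * m + 2)) :
    ∃ j < (4 * m + 2), U2 m j = v ∨ W2 m j = v := by
  by_cases c0 : v + 1 ≤ m
  · obtain ⟨j, hj⟩ : ∃ j, j = (2 * v - (2)) := ⟨_, rfl⟩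
    have a0 := U2_0e m (j) hp0 (by omega) (by omega) (by omega)
    exact ⟨j, by omega, Or.inl (by omega)⟩
  by_cases c1 : v ≤ m
  · obtain ⟨j, hj⟩ : ∃ j, j = (2 * m - (2)) := ⟨_, rfl⟩
    have a0 := W2_1 m (j) hp0 (by omega) (by omega)
    exact ⟨j, by omega, Or.inr (by omega)⟩
  by_cases c2 : v + 1 ≤ 2 * m
  · obtain ⟨j, hj⟩ : ∃ j, j = (2 * v - (1)) := ⟨_, rfl⟩
    have a0 := U2_3o m (j) hp0 (by omega) (by omega) (by omega)
    exact ⟨j, by omega, Or.inl (by omega)⟩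
  by_cases c3 : v ≤ 2 * m
  · obtain ⟨j, hj⟩ : ∃ j, j = (4 * m) := ⟨_, rfl⟩
    have a0 := W2_6 m (j) hp0 (by omega) (by omega)
    exact ⟨j, by omega, Or.inr (by omega)⟩
  by_cases c4 : v ≤ 2 * m + 1
  · obtain ⟨j, hj⟩ : ∃ j, j = (4 * m + 1) := ⟨_, rfl⟩
    have a0 := W2_7 m (j) hp0 (by omega) (by omega)
    exact ⟨j, by omega, Or.inr (by omega)⟩
  by_cases c5 : v ≤ 2 * m + 2
  · obtain ⟨j, hj⟩ : ∃ j, j = (4 * m + 1) := ⟨_, rfl⟩
    have a0 := U2_7 m (j) hp0 (by omega) (by omega)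
    exact ⟨j, by omega, Or.inl (by omega)⟩
  by_cases c6 : v ≤ 3 * m + 1
  · obtain ⟨j, hj⟩ : ∃ j, j = (2 * v - (4 * m + 5)) := ⟨_, rfl⟩
    have a0 := U2_0o m (j) hp0 (by omega) (by omega) (by omega)
    exact ⟨j, by omega, Or.inl (by omega)⟩
  by_cases c7 : v ≤ 3 * m + 2
  · obtain ⟨j, hj⟩ : ∃ j, j = (2 * m - (2)) := ⟨_, rfl⟩
    have a0 := U2_1 m (j) hp0 (by omega) (by omega)
    exact ⟨j, by omega, Or.inl (by omega)⟩
  by_cases c8 : v ≤ 4 * m + 1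
  · obtain ⟨j, hj⟩ : ∃ j, j = (2 * v - (4 * m + 6)) := ⟨_, rfl⟩
    have a0 := U2_3e m (j) hp0 (by omega) (by omega) (by omega)
    exact ⟨j, by omega, Or.inl (by omega)⟩
  by_cases c9 : v ≤ 4 * m + 2
  · obtain ⟨j, hj⟩ : ∃ j, j = (4 * m) := ⟨_, rfl⟩
    have a0 := U2_6 m (j) hp0 (by omega) (by omega)
    exact ⟨j, by omega, Or.inl (by omega)⟩
  by_cases c10 : v ≤ 5 * m + 1
  · obtain ⟨j, hj⟩ : ∃ j, j = (2 * v - (8 * m + 5)) := ⟨_, rfl⟩
    have a0 := W2_0o m (j) hp0 (by omega) (by omega) (by omega)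
    exact ⟨j, by omega, Or.inr (by omega)⟩
  by_cases c11 : v ≤ 6 * m
  · obtain ⟨j, hj⟩ : ∃ j, j = (2 * v - (8 * m + 4)) := ⟨_, rfl⟩
    have a0 := W2_3e m (j) hp0 (by omega) (by omega) (by omega)
    exact ⟨j, by omega, Or.inr (by omega)⟩
  by_cases c12 : v ≤ 6 * m + 1
  · obtain ⟨j, hj⟩ : ∃ j, j = (4 * m - (2)) := ⟨_, rfl⟩
    have a0 := W2_4 m (j) hp0 (by omega) (by omega)
    exact ⟨j, by omega, Or.inr (by omega)⟩
  by_cases c13 : v ≤ 6 * m + 2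
  · obtain ⟨j, hj⟩ : ∃ j, j = (4 * m - (1)) := ⟨_, rfl⟩
    have a0 := U2_5 m (j) hp0 (by omega) (by omega)
    exact ⟨j, by omega, Or.inl (by omega)⟩
  by_cases c14 : v ≤ 6 * m + 3
  · obtain ⟨j, hj⟩ : ∃ j, j = (4 * m - (1)) := ⟨_, rfl⟩
    have a0 := W2_5 m (j) hp0 (by omega) (by omega)
    exact ⟨j, by omega, Or.inr (by omega)⟩
  by_cases c15 : v ≤ 7 * m + 2
  · obtain ⟨j, hj⟩ : ∃ j, j = (2 * v - (12 * m + 8)) := ⟨_, rfl⟩
    have a0 := W2_0e m (j) hp0 (by omega) (by omega) (by omega)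
    exact ⟨j, by omega, Or.inr (by omega)⟩
  by_cases c16 : v ≤ 7 * m + 3
  · obtain ⟨j, hj⟩ : ∃ j, j = (2 * m - (1)) := ⟨_, rfl⟩
    have a0 := U2_2 m (j) hp0 (by omega) (by omega)
    exact ⟨j, by omega, Or.inl (by omega)⟩
  by_cases c17 : v ≤ 7 * m + 4
  · obtain ⟨j, hj⟩ : ∃ j, j = (2 * m - (1)) := ⟨_, rfl⟩
    have a0 := W2_2 m (j) hp0 (by omega) (by omega)
    exact ⟨j, by omega, Or.inr (by omega)⟩
  by_cases c18 : v ≤ 8 * m + 3
  · obtain ⟨j, hj⟩ : ∃ j, j = (2 * v - (12 * m + 9)) := ⟨_, rfl⟩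
    have a0 := W2_3o m (j) hp0 (by omega) (by omega) (by omega)
    exact ⟨j, by omega, Or.inr (by omega)⟩
  obtain ⟨j, hj⟩ : ∃ j, j = (4 * m - (2)) := ⟨_, rfl⟩
  have a0 := U2_4 m (j) hp0 (by omega) (by omega)
  exact ⟨j, by omega, Or.inl (by omega)⟩

lemma cs2 (m : ℕ) (hp0 : 2 ≤ m) (v : ℕ) (h1 : (2 * m + 4) ≤ v) (h2 : v + 2 < (2 * m + 4) + 3 * (4 * m + 2)) :
    ∃ j < (4 * m + 2), U2 m j + W2 m j = v ∨
      (j + 1 < (4 * m + 2) ∧ (U2 m j + U2 m (j + 1) = v ∨ W2 m j + W2 m (j + 1) = v)) := by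
  by_cases c0 : v ≤ 2 * m + 4
  · obtain ⟨j, hj⟩ : ∃ j, j = (v - (2 * m + 4)) := ⟨_, rfl⟩
    have a0 := U2_0e m (j) hp0 (by omega) (by omega) (by omega)
    have a1 := U2_0o m ((j + 1)) hp0 (by omega) (by omega) (by omega)
    exact ⟨j, by omega, Or.inr ⟨by omega, Or.inl (by omega)⟩⟩
  by_cases c1 : v + 1 ≤ 4 * m
  · by_cases d0 : (v - (2 * m + 5)) % 2 = 0
    · obtain ⟨j, hj⟩ : ∃ j, j = (v - (2 * m + 4)) := ⟨_, rfl⟩
      have a0 := U2_0o m (j) hp0 (by omega) (by omega) (by omega)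
      have a1 := U2_0e m ((j + 1)) hp0 (by omega) (by omega) (by omega)
      exact ⟨j, by omega, Or.inr ⟨by omega, Or.inl (by omega)⟩⟩
    obtain ⟨j, hj⟩ : ∃ j, j = (v - (2 * m + 4)) := ⟨_, rfl⟩
    have a0 := U2_0e m (j) hp0 (by omega) (by omega) (by omega)
    have a1 := U2_0o m ((j + 1)) hp0 (by omega) (by omega) (by omega)
    exact ⟨j, by omega, Or.inr ⟨by omega, Or.inl (by omega)⟩⟩
  by_cases c2 : v ≤ 4 * m
  · obtain ⟨j, hj⟩ : ∃ j, j = (v - (2 * m + 4)) := ⟨_, rfl⟩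
    have a0 := U2_0e m (j) hp0 (by omega) (by omega) (by omega)
    have a1 := U2_0o m ((j + 1)) hp0 (by omega) (by omega) (by omega)
    exact ⟨j, by omega, Or.inr ⟨by omega, Or.inl (by omega)⟩⟩
  by_cases c3 : v ≤ 4 * m + 1
  · obtain ⟨j, hj⟩ : ∃ j, j = (4 * m) := ⟨_, rfl⟩
    have a0 := W2_6 m (j) hp0 (by omega) (by omega)
    have a1 := W2_7 m ((j + 1)) hp0 (by omega) (by omega)
    exact ⟨j, by omega, Or.inr ⟨by omega, Or.inr (by omega)⟩⟩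
  by_cases c4 : v ≤ 4 * m + 2
  · obtain ⟨j, hj⟩ : ∃ j, j = (2 * m - (2)) := ⟨_, rfl⟩
    have a0 := U2_1 m (j) hp0 (by omega) (by omega)
    have a1 := W2_1 m (j) hp0 (by omega) (by omega)
    exact ⟨j, by omega, Or.inl (by omega)⟩
  by_cases c5 : v ≤ 4 * m + 3
  · obtain ⟨j, hj⟩ : ∃ j, j = (4 * m + 1) := ⟨_, rfl⟩
    have a0 := U2_7 m (j) hp0 (by omega) (by omega)
    have a1 := W2_7 m (j) hp0 (by omega) (by omega)
    exact ⟨j, by omega, Or.inl (by omega)⟩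
  by_cases c6 : v ≤ 4 * m + 4
  · obtain ⟨j, hj⟩ : ∃ j, j = (v - (2 * m + 4)) := ⟨_, rfl⟩
    have a0 := U2_3e m (j) hp0 (by omega) (by omega) (by omega)
    have a1 := U2_3o m ((j + 1)) hp0 (by omega) (by omega) (by omega)
    exact ⟨j, by omega, Or.inr ⟨by omega, Or.inl (by omega)⟩⟩
  by_cases c7 : v + 1 ≤ 6 * m
  · by_cases d0 : (v - (4 * m + 5)) % 2 = 0
    · obtain ⟨j, hj⟩ : ∃ j, j = (v - (2 * m + 4)) := ⟨_, rfl⟩
      have a0 := U2_3o m (j) hp0 (by omega) (by omega) (by omega)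
      have a1 := U2_3e m ((j + 1)) hp0 (by omega) (by omega) (by omega)
      exact ⟨j, by omega, Or.inr ⟨by omega, Or.inl (by omega)⟩⟩
    obtain ⟨j, hj⟩ : ∃ j, j = (v - (2 * m + 4)) := ⟨_, rfl⟩
    have a0 := U2_3e m (j) hp0 (by omega) (by omega) (by omega)
    have a1 := U2_3o m ((j + 1)) hp0 (by omega) (by omega) (by omega)
    exact ⟨j, by omega, Or.inr ⟨by omega, Or.inl (by omega)⟩⟩
  by_cases c8 : v ≤ 6 * m
  · obtain ⟨j, hj⟩ : ∃ j, j = (v - (2 * m + 4)) := ⟨_, rfl⟩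
    have a0 := U2_3e m (j) hp0 (by omega) (by omega) (by omega)
    have a1 := U2_3o m ((j + 1)) hp0 (by omega) (by omega) (by omega)
    exact ⟨j, by omega, Or.inr ⟨by omega, Or.inl (by omega)⟩⟩
  by_cases c9 : v ≤ 6 * m + 1
  · obtain ⟨j, hj⟩ : ∃ j, j = (2 * m - (3)) := ⟨_, rfl⟩
    have a0 := W2_0o m (j) hp0 (by omega) (by omega) (by omega)
    have a1 := W2_1 m ((j + 1)) hp0 (by omega) (by omega)
    exact ⟨j, by omega, Or.inr ⟨by omega, Or.inr (by omega)⟩⟩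
  by_cases c10 : v ≤ 6 * m + 2
  · obtain ⟨j, hj⟩ : ∃ j, j = (4 * m) := ⟨_, rfl⟩
    have a0 := U2_6 m (j) hp0 (by omega) (by omega)
    have a1 := W2_6 m (j) hp0 (by omega) (by omega)
    exact ⟨j, by omega, Or.inl (by omega)⟩
  by_cases c11 : v ≤ 6 * m + 3
  · obtain ⟨j, hj⟩ : ∃ j, j = (2 * m - (3)) := ⟨_, rfl⟩
    have a0 := U2_0o m (j) hp0 (by omega) (by omega) (by omega)
    have a1 := U2_1 m ((j + 1)) hp0 (by omega) (by omega)
    exact ⟨j, by omega, Or.inr ⟨by omega, Or.inl (by omega)⟩⟩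
  by_cases c12 : v ≤ 6 * m + 4
  · obtain ⟨j, hj⟩ : ∃ j, j = (4 * m) := ⟨_, rfl⟩
    have a0 := U2_6 m (j) hp0 (by omega) (by omega)
    have a1 := U2_7 m ((j + 1)) hp0 (by omega) (by omega)
    exact ⟨j, by omega, Or.inr ⟨by omega, Or.inl (by omega)⟩⟩
  by_cases c13 : v ≤ 6 * m + 5
  · obtain ⟨j, hj⟩ : ∃ j, j = (v - (6 * m + 5)) := ⟨_, rfl⟩
    have a0 := U2_0e m (j) hp0 (by omega) (by omega) (by omega)
    have a1 := W2_0e m (j) hp0 (by omega) (by omega) (by omega)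
    exact ⟨j, by omega, Or.inl (by omega)⟩
  by_cases c14 : v ≤ 8 * m + 1
  · by_cases d0 : (v - (6 * m + 6)) % 2 = 0
    · obtain ⟨j, hj⟩ : ∃ j, j = (v - (6 * m + 5)) := ⟨_, rfl⟩
      have a0 := U2_0o m (j) hp0 (by omega) (by omega) (by omega)
      have a1 := W2_0o m (j) hp0 (by omega) (by omega) (by omega)
      exact ⟨j, by omega, Or.inl (by omega)⟩
    obtain ⟨j, hj⟩ : ∃ j, j = (v - (6 * m + 5)) := ⟨_, rfl⟩
    have a0 := U2_0e m (j) hp0 (by omega) (by omega) (by omega)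
    have a1 := W2_0e m (j) hp0 (by omega) (by omega) (by omega)
    exact ⟨j, by omega, Or.inl (by omega)⟩
  by_cases c15 : v ≤ 8 * m + 2
  · obtain ⟨j, hj⟩ : ∃ j, j = (v - (6 * m + 5)) := ⟨_, rfl⟩
    have a0 := U2_0o m (j) hp0 (by omega) (by omega) (by omega)
    have a1 := W2_0o m (j) hp0 (by omega) (by omega) (by omega)
    exact ⟨j, by omega, Or.inl (by omega)⟩
  by_cases c16 : v ≤ 8 * m + 3
  · obtain ⟨j, hj⟩ : ∃ j, j = (4 * m - (1)) := ⟨_, rfl⟩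
    have a0 := W2_5 m (j) hp0 (by omega) (by omega)
    have a1 := W2_6 m ((j + 1)) hp0 (by omega) (by omega)
    exact ⟨j, by omega, Or.inr ⟨by omega, Or.inr (by omega)⟩⟩
  by_cases c17 : v ≤ 8 * m + 4
  · obtain ⟨j, hj⟩ : ∃ j, j = (2 * m - (2)) := ⟨_, rfl⟩
    have a0 := W2_1 m (j) hp0 (by omega) (by omega)
    have a1 := W2_2 m ((j + 1)) hp0 (by omega) (by omega)
    exact ⟨j, by omega, Or.inr ⟨by omega, Or.inr (by omega)⟩⟩
  by_cases c18 : v ≤ 8 * m + 5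
  · obtain ⟨j, hj⟩ : ∃ j, j = (v - (6 * m + 5)) := ⟨_, rfl⟩
    have a0 := U2_3e m (j) hp0 (by omega) (by omega) (by omega)
    have a1 := W2_3e m (j) hp0 (by omega) (by omega) (by omega)
    exact ⟨j, by omega, Or.inl (by omega)⟩
  by_cases c19 : v ≤ 10 * m + 1
  · by_cases d0 : (v - (8 * m + 6)) % 2 = 0
    · obtain ⟨j, hj⟩ : ∃ j, j = (v - (6 * m + 5)) := ⟨_, rfl⟩
      have a0 := U2_3o m (j) hp0 (by omega) (by omega) (by omega)
      have a1 := W2_3o m (j) hp0 (by omega) (by omega) (by omega)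
      exact ⟨j, by omega, Or.inl (by omega)⟩
    obtain ⟨j, hj⟩ : ∃ j, j = (v - (6 * m + 5)) := ⟨_, rfl⟩
    have a0 := U2_3e m (j) hp0 (by omega) (by omega) (by omega)
    have a1 := W2_3e m (j) hp0 (by omega) (by omega) (by omega)
    exact ⟨j, by omega, Or.inl (by omega)⟩
  by_cases c20 : v ≤ 10 * m + 2
  · obtain ⟨j, hj⟩ : ∃ j, j = (v - (6 * m + 5)) := ⟨_, rfl⟩
    have a0 := U2_3o m (j) hp0 (by omega) (by omega) (by omega)
    have a1 := W2_3o m (j) hp0 (by omega) (by omega) (by omega)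
    exact ⟨j, by omega, Or.inl (by omega)⟩
  by_cases c21 : v ≤ 10 * m + 3
  · obtain ⟨j, hj⟩ : ∃ j, j = (4 * m - (3)) := ⟨_, rfl⟩
    have a0 := U2_3o m (j) hp0 (by omega) (by omega) (by omega)
    have a1 := U2_4 m ((j + 1)) hp0 (by omega) (by omega)
    exact ⟨j, by omega, Or.inr ⟨by omega, Or.inl (by omega)⟩⟩
  by_cases c22 : v ≤ 10 * m + 4
  · obtain ⟨j, hj⟩ : ∃ j, j = (4 * m - (1)) := ⟨_, rfl⟩
    have a0 := U2_5 m (j) hp0 (by omega) (by omega)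
    have a1 := U2_6 m ((j + 1)) hp0 (by omega) (by omega)
    exact ⟨j, by omega, Or.inr ⟨by omega, Or.inl (by omega)⟩⟩
  by_cases c23 : v ≤ 10 * m + 5
  · obtain ⟨j, hj⟩ : ∃ j, j = (2 * m - (2)) := ⟨_, rfl⟩
    have a0 := U2_1 m (j) hp0 (by omega) (by omega)
    have a1 := U2_2 m ((j + 1)) hp0 (by omega) (by omega)
    exact ⟨j, by omega, Or.inr ⟨by omega, Or.inl (by omega)⟩⟩
  by_cases c24 : v ≤ 10 * m + 6
  · obtain ⟨j, hj⟩ : ∃ j, j = (2 * m - (1)) := ⟨_, rfl⟩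
    have a0 := U2_2 m (j) hp0 (by omega) (by omega)
    have a1 := U2_3e m ((j + 1)) hp0 (by omega) (by omega) (by omega)
    exact ⟨j, by omega, Or.inr ⟨by omega, Or.inl (by omega)⟩⟩
  by_cases c25 : v ≤ 10 * m + 7
  · obtain ⟨j, hj⟩ : ∃ j, j = (v - (10 * m + 7)) := ⟨_, rfl⟩
    have a0 := W2_0e m (j) hp0 (by omega) (by omega) (by omega)
    have a1 := W2_0o m ((j + 1)) hp0 (by omega) (by omega) (by omega)
    exact ⟨j, by omega, Or.inr ⟨by omega, Or.inr (by omega)⟩⟩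
  by_cases c26 : v ≤ 12 * m + 2
  · by_cases d0 : (v - (10 * m + 8)) % 2 = 0
    · obtain ⟨j, hj⟩ : ∃ j, j = (v - (10 * m + 7)) := ⟨_, rfl⟩
      have a0 := W2_0o m (j) hp0 (by omega) (by omega) (by omega)
      have a1 := W2_0e m ((j + 1)) hp0 (by omega) (by omega) (by omega)
      exact ⟨j, by omega, Or.inr ⟨by omega, Or.inr (by omega)⟩⟩
    obtain ⟨j, hj⟩ : ∃ j, j = (v - (10 * m + 7)) := ⟨_, rfl⟩
    have a0 := W2_0e m (j) hp0 (by omega) (by omega) (by omega)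
    have a1 := W2_0o m ((j + 1)) hp0 (by omega) (by omega) (by omega)
    exact ⟨j, by omega, Or.inr ⟨by omega, Or.inr (by omega)⟩⟩
  by_cases c27 : v ≤ 12 * m + 3
  · obtain ⟨j, hj⟩ : ∃ j, j = (v - (10 * m + 7)) := ⟨_, rfl⟩
    have a0 := W2_0e m (j) hp0 (by omega) (by omega) (by omega)
    have a1 := W2_0o m ((j + 1)) hp0 (by omega) (by omega) (by omega)
    exact ⟨j, by omega, Or.inr ⟨by omega, Or.inr (by omega)⟩⟩
  by_cases c28 : v ≤ 12 * m + 4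
  · obtain ⟨j, hj⟩ : ∃ j, j = (4 * m - (2)) := ⟨_, rfl⟩
    have a0 := W2_4 m (j) hp0 (by omega) (by omega)
    have a1 := W2_5 m ((j + 1)) hp0 (by omega) (by omega)
    exact ⟨j, by omega, Or.inr ⟨by omega, Or.inr (by omega)⟩⟩
  by_cases c29 : v ≤ 12 * m + 5
  · obtain ⟨j, hj⟩ : ∃ j, j = (4 * m - (1)) := ⟨_, rfl⟩
    have a0 := U2_5 m (j) hp0 (by omega) (by omega)
    have a1 := W2_5 m (j) hp0 (by omega) (by omega)
    exact ⟨j, by omega, Or.inl (by omega)⟩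
  by_cases c30 : v ≤ 12 * m + 6
  · obtain ⟨j, hj⟩ : ∃ j, j = (2 * m - (1)) := ⟨_, rfl⟩
    have a0 := W2_2 m (j) hp0 (by omega) (by omega)
    have a1 := W2_3e m ((j + 1)) hp0 (by omega) (by omega) (by omega)
    exact ⟨j, by omega, Or.inr ⟨by omega, Or.inr (by omega)⟩⟩
  by_cases c31 : v ≤ 12 * m + 7
  · obtain ⟨j, hj⟩ : ∃ j, j = (v - (10 * m + 7)) := ⟨_, rfl⟩
    have a0 := W2_3e m (j) hp0 (by omega) (by omega) (by omega)
    have a1 := W2_3o m ((j + 1)) hp0 (by omega) (by omega) (by omega)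
    exact ⟨j, by omega, Or.inr ⟨by omega, Or.inr (by omega)⟩⟩
  by_cases c32 : v ≤ 14 * m + 2
  · by_cases d0 : (v - (12 * m + 8)) % 2 = 0
    · obtain ⟨j, hj⟩ : ∃ j, j = (v - (10 * m + 7)) := ⟨_, rfl⟩
      have a0 := W2_3o m (j) hp0 (by omega) (by omega) (by omega)
      have a1 := W2_3e m ((j + 1)) hp0 (by omega) (by omega) (by omega)
      exact ⟨j, by omega, Or.inr ⟨by omega, Or.inr (by omega)⟩⟩
    obtain ⟨j, hj⟩ : ∃ j, j = (v - (10 * m + 7)) := ⟨_, rfl⟩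
    have a0 := W2_3e m (j) hp0 (by omega) (by omega) (by omega)
    have a1 := W2_3o m ((j + 1)) hp0 (by omega) (by omega) (by omega)
    exact ⟨j, by omega, Or.inr ⟨by omega, Or.inr (by omega)⟩⟩
  by_cases c33 : v ≤ 14 * m + 3
  · obtain ⟨j, hj⟩ : ∃ j, j = (v - (10 * m + 7)) := ⟨_, rfl⟩
    have a0 := W2_3e m (j) hp0 (by omega) (by omega) (by omega)
    have a1 := W2_3o m ((j + 1)) hp0 (by omega) (by omega) (by omega)
    exact ⟨j, by omega, Or.inr ⟨by omega, Or.inr (by omega)⟩⟩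
  by_cases c34 : v ≤ 14 * m + 4
  · obtain ⟨j, hj⟩ : ∃ j, j = (4 * m - (3)) := ⟨_, rfl⟩
    have a0 := W2_3o m (j) hp0 (by omega) (by omega) (by omega)
    have a1 := W2_4 m ((j + 1)) hp0 (by omega) (by omega)
    exact ⟨j, by omega, Or.inr ⟨by omega, Or.inr (by omega)⟩⟩
  by_cases c35 : v ≤ 14 * m + 5
  · obtain ⟨j, hj⟩ : ∃ j, j = (4 * m - (2)) := ⟨_, rfl⟩
    have a0 := U2_4 m (j) hp0 (by omega) (by omega)
    have a1 := W2_4 m (j) hp0 (by omega) (by omega)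
    exact ⟨j, by omega, Or.inl (by omega)⟩
  by_cases c36 : v ≤ 14 * m + 6
  · obtain ⟨j, hj⟩ : ∃ j, j = (4 * m - (2)) := ⟨_, rfl⟩
    have a0 := U2_4 m (j) hp0 (by omega) (by omega)
    have a1 := U2_5 m ((j + 1)) hp0 (by omega) (by omega)
    exact ⟨j, by omega, Or.inr ⟨by omega, Or.inl (by omega)⟩⟩
  obtain ⟨j, hj⟩ : ∃ j, j = (2 * m - (1)) := ⟨_, rfl⟩
  have a0 := U2_2 m (j) hp0 (by omega) (by omega)
  have a1 := W2_2 m (j) hp0 (by omega) (by omega)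
  exact ⟨j, by omega, Or.inl (by omega)⟩

lemma small4 : IsSEM (SimpleGraph.pathGraph 4 □ SimpleGraph.pathGraph 2) := by
  refine ladder 4 (fun j => [1, 7, 2, 3].getD j 0) (fun j => [5, 6, 8, 4].getD j 0) 5 (by omega) ?_ ?_
  · have : ∀ x ≤ 8, 1 ≤ x → ∃ j < 4, [1, 7, 2, 3].getD j 0 = x ∨ [5, 6, 8, 4].getD j 0 = x := by decide
    exact fun x a b => this x b a
  · have : ∀ t < 15, 5 ≤ t → ∃ j < 4, [1, 7, 2, 3].getD j 0 + [5, 6, 8, 4].getD j 0 = t ∨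
        (j + 1 < 4 ∧ ([1, 7, 2, 3].getD j 0 + [1, 7, 2, 3].getD (j + 1) 0 = t ∨ [5, 6, 8, 4].getD j 0 + [5, 6, 8, 4].getD (j + 1) 0 = t)) := by decide
    exact fun t a b => this t (by omega) a

lemma small6 : IsSEM (SimpleGraph.pathGraph 6 □ SimpleGraph.pathGraph 2) := by
  refine ladder 6 (fun j => [1, 8, 12, 4, 11, 3].getD j 0) (fun j => [5, 2, 6, 7, 10, 9].getD j 0) 6 (by omega) ?_ ?_
  · have : ∀ x ≤ 12, 1 ≤ x → ∃ j < 6, [1, 8, 12, 4, 11, 3].getD j 0 = x ∨ [5, 2, 6, 7, 10, 9].getD j 0 = x := by decide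
    exact fun x a b => this x b a
  · have : ∀ t < 22, 6 ≤ t → ∃ j < 6, [1, 8, 12, 4, 11, 3].getD j 0 + [5, 2, 6, 7, 10, 9].getD j 0 = t ∨
        (j + 1 < 6 ∧ ([1, 8, 12, 4, 11, 3].getD j 0 + [1, 8, 12, 4, 11, 3].getD (j + 1) 0 = t ∨ [5, 2, 6, 7, 10, 9].getD j 0 + [5, 2, 6, 7, 10, 9].getD (j + 1) 0 = t)) := by decide
    exact fun t a b => this t (by omega) a

theorem result (n : ℕ) (hn : 2 ≤ n) (he : Even n) :
    IsSEM (SimpleGraph.pathGraph n □ SimpleGraph.pathGraph 2) ↔ n ≠ 2 := by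
  constructor
  · rintro h rfl
    exact not2 h
  · intro h2
    by_cases h4 : n = 4
    · rw [h4]; exact small4
    by_cases h6 : n = 6
    · rw [h6]; exact small6
    obtain ⟨k, hk⟩ := he
    obtain ⟨m, hm⟩ : ∃ m, n = 4 * m ∨ n = 4 * m + 2 := ⟨n / 4, by omega⟩
    rcases hm with h | h <;> rw [h]
    · exact ladder _ _ _ _ (by omega) (cl0 m (by omega)) (cs0 m (by omega))
    · exact ladder _ _ _ _ (by omega) (cl2 m (by omega)) (cs2 m (by omega))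

end Pool.Agent.Results.MP_4fbecc_co.Full
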